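import Pool.Agent.H294ZP.Main

/-!
# MP_d83ecd_ag: Zilber-Pink for a positive proportion of complete intersections in `Y(1)^n`

`Y(1)^n` is identified with `ℂ^n` by the elliptic modular function `jj = j = E₄³ / Δ`. A special
subvariety of `Y(1)^n` of dimension `r` is given by `SpecialDatum n r`: its points are the points
`x` with `x_i = j (τ_i)` (`τ_i` a fixed CM point) for the constant coordinates, and
`x_i = j (g_i z_k)` for the coordinates of class `k`, `z_1, …, z_r` free in the upper half plane and
`g_i` a fixed integral matrix of positive determinant.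

For `F : Fin c → (Fin n → Fin (d + 1)) → ℤ` let `V(F)` be the set of common zeros in `ℂ^n` of the
`c` integral polynomials (of degree at most `d` in each variable) with coefficients `F m e`.
`NoAtypical F` says: if `x` is a point of `V(F)` on a special subvariety `Z` then
`trdeg_ℚ ℚ(x) + c ≤ dim Z`; so no component of `V(F) ∩ Z` is atypical.

Theorem: for all `n`, `c ≥ 1`, `d ≥ 1` a positive proportion of all `F` with coefficients bounded by
`H` (as `H → ∞`) have the property `NoAtypical F`, and moreover `V(F)` is not empty (for `c ≤ n`).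
-/

namespace Pool.Agent.Results.MP_d83ecd_ag.PositiveProportion

open H294ZP

theorem result (n c d : ℕ) (hc : 0 < c) (hd : 0 < d) :
    ∃ δ : ℝ, 0 < δ ∧ ∃ H₀ : ℕ, ∀ H : ℕ, H₀ ≤ H →
      δ * (2 * H + 1) ^ (c * (d + 1) ^ n) ≤
        ({F : Fin c → (Fin n → Fin (d + 1)) → ℤ | (∀ m e, |F m e| ≤ H) ∧
          (c ≤ n → ∃ x : Fin n → ℂ, ∀ m, evalP (F m) x = 0) ∧
          ∀ (r : ℕ) (Z : SpecialDatum n r) (x : Fin n → ℂ), x ∈ Z.locus →
            (∀ m, evalP (F m) x = 0) →
            ∀ S : Finset (Fin n), AlgebraicIndependent ℚ (fun i : S => x i) →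
              S.card + c ≤ r}.ncard : ℝ) :=
  main n c d hc hd

end Pool.Agent.Results.MP_d83ecd_ag.PositiveProportion
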